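import Pool.Agent.Helper15.LP.Defs
import Pool.Agent.Helper25.LR.F

set_option autoImplicit false

open Finset
open scoped Classical
open Pool.Agent.Helper15.LR

namespace Pool.Agent.Helper15.LP

theorem MREG_nb {V : Type} [Fintype V] (G : SimpleGraph V) (v : V) : nb G.edgeSet v = Nb G v := by
  ext u
  simp [nb, Nb, SimpleGraph.mem_edgeSet]

theorem MREG_D_lt {V : Type} [Fintype V] {G : SimpleGraph V} {D : ℕ} (hreg : Reg G D) (v : V) :
    D < Fintype.card V := by
  rw [← hreg v, ← Finset.card_univ]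
  apply Finset.card_lt_card
  rw [Finset.ssubset_univ_iff]
  intro h
  have : v ∈ Nb G v := by rw [h]; exact Finset.mem_univ _
  simp [Nb] at this

/-- numerical facts -/
theorem MREG_num {n D m : ℕ} (hm : 60 ≤ m) (hn : (n : ℝ) ≤ Real.exp (m / 100)) (hDn : D < n)
    (hD : 10 ^ 12 * m ^ 5 ≤ D) :
    (n : ℝ) * n * m * (2 * Real.exp (-((2 * Real.sqrt (m * D)) ^ 2 / (2 * ((D + 10 ^ 12 * m ^ 5 : ℕ) : ℝ))))) < 1 ∧
    10 * (Nat.clog 2 (D + 10 ^ 12 * m ^ 5) + 1) ≤ m := by
  have hmr : (60 : ℝ) ≤ m := by exact_mod_cast hm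
  have hDpos : 0 < D := by
    have : 0 < 10 ^ 12 * m ^ 5 := by positivity
    omega
  have hDr : (0 : ℝ) < D := by exact_mod_cast hDpos
  have hL0 : ((D + 10 ^ 12 * m ^ 5 : ℕ) : ℝ) ≤ 2 * D := by
    have : D + 10 ^ 12 * m ^ 5 ≤ 2 * D := by omega
    exact_mod_cast this
  have hL0pos : (0 : ℝ) < ((D + 10 ^ 12 * m ^ 5 : ℕ) : ℝ) := by
    have : 0 < D + 10 ^ 12 * m ^ 5 := by omega
    exact_mod_cast this
  constructor
  · have h1 : (m : ℝ) ≤ (2 * Real.sqrt (m * D)) ^ 2 / (2 * ((D + 10 ^ 12 * m ^ 5 : ℕ) : ℝ)) := by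
      rw [le_div_iff₀ (by positivity), mul_pow, Real.sq_sqrt (by positivity)]
      nlinarith
    have h2 : Real.exp (-((2 * Real.sqrt (m * D)) ^ 2 / (2 * ((D + 10 ^ 12 * m ^ 5 : ℕ) : ℝ)))) ≤
        Real.exp (-(m : ℝ)) := Real.exp_le_exp.mpr (by linarith)
    have hn0 : (0 : ℝ) ≤ n := Nat.cast_nonneg n
    have h3 : (n : ℝ) * n ≤ Real.exp (m / 50) := by
      have : Real.exp ((m : ℝ) / 50) = Real.exp (m / 100) * Real.exp (m / 100) := by
        rw [← Real.exp_add]; congr 1; ring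
      rw [this]
      exact mul_le_mul hn hn hn0 (Real.exp_pos _).le
    have h4 : (m : ℝ) ≤ 2 * Real.exp ((m : ℝ) / 2) / 2 := by
      have := Real.add_one_le_exp ((m : ℝ) / 2)
      have h5 : (m : ℝ) / 2 + 1 ≤ Real.exp (m / 2) := this
      have h6 : ((m : ℝ) / 4 + 1) ^ 2 ≤ Real.exp (m / 2) := by
        have h7 := Real.add_one_le_exp ((m : ℝ) / 4)
        have h8 : Real.exp ((m : ℝ) / 2) = Real.exp (m / 4) ^ 2 := by
          rw [← Real.exp_nat_mul]; congr 1; push_cast; ring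
        rw [h8]
        exact pow_le_pow_left₀ (by positivity) h7 2
      nlinarith
    have h9 : (n : ℝ) * n * m * (2 * Real.exp (-((2 * Real.sqrt (m * D)) ^ 2 / (2 * ((D + 10 ^ 12 * m ^ 5 : ℕ) : ℝ))))) ≤
        Real.exp (m / 50) * (2 * Real.exp ((m : ℝ) / 2) / 2) * (2 * Real.exp (-(m : ℝ))) := by
      have hm0 : (0 : ℝ) ≤ m := Nat.cast_nonneg m
      gcongr
    refine lt_of_le_of_lt h9 ?_
    have h10 : Real.exp ((m : ℝ) / 50) * (2 * Real.exp ((m : ℝ) / 2) / 2) * (2 * Real.exp (-(m : ℝ))) =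
        2 * Real.exp (-(12 / 25 * (m : ℝ))) := by
      have : Real.exp (-(12 / 25 * (m : ℝ))) = Real.exp ((m : ℝ) / 50) * Real.exp ((m : ℝ) / 2) * Real.exp (-(m : ℝ)) := by
        rw [← Real.exp_add, ← Real.exp_add]; congr 1; ring
      rw [this]; ring
    rw [h10]
    have h11 : Real.exp (-(12 / 25 * (m : ℝ))) ≤ Real.exp (-1) := Real.exp_le_exp.mpr (by linarith)
    have h12 : Real.exp (-1) < 1 / 2 := by
      rw [Real.exp_neg, inv_eq_one_div, div_lt_div_iff₀ (Real.exp_pos 1) (by norm_num)]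
      have := Real.exp_one_gt_d9
      linarith
    linarith
  · -- clog bound
    set L0 := D + 10 ^ 12 * m ^ 5 with hL0def
    have hL0le : L0 ≤ 2 * D := by omega
    -- 2 ^ (clog - 1) < L0 ≤ 2 n ≤ 2 exp(m/100)
    have hL01 : 1 < L0 := by
      have : 1 ≤ 10 ^ 12 * m ^ 5 := Nat.one_le_iff_ne_zero.mpr (by positivity)
      omega
    have h1 : 2 ^ (Nat.clog 2 L0 - 1) < L0 := by
      have := Nat.pow_pred_clog_lt_self (b := 2) (by norm_num) hL01
      simpa [Nat.pred_eq_sub_one] using this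
    have h2 : ((2 : ℝ)) ^ (Nat.clog 2 L0 - 1) ≤ 2 * Real.exp (m / 100) := by
      have h3 : ((2 ^ (Nat.clog 2 L0 - 1) : ℕ) : ℝ) ≤ ((2 * n : ℕ) : ℝ) := by
        exact_mod_cast (by omega : 2 ^ (Nat.clog 2 L0 - 1) ≤ 2 * n)
      push_cast at h3
      linarith
    -- take logs
    have h3 : ((Nat.clog 2 L0 - 1 : ℕ) : ℝ) * Real.log 2 ≤ Real.log 2 + m / 100 := by
      have h4 := Real.log_le_log (by positivity) h2
      rw [Real.log_pow, Real.log_mul (by norm_num) (Real.exp_pos _).ne', Real.log_exp] at h4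
      exact h4
    have hl2 := Real.log_two_gt_d9
    have hl2' := Real.log_two_lt_d9
    have h5 : ((Nat.clog 2 L0 - 1 : ℕ) : ℝ) ≤ 1 + m / 69 := by
      by_contra hcon
      push Not at hcon
      have h6 : (1 + (m : ℝ) / 69) * Real.log 2 < ((Nat.clog 2 L0 - 1 : ℕ) : ℝ) * Real.log 2 :=
        mul_lt_mul_of_pos_right hcon (by linarith)
      have h7 : (m : ℝ) / 100 ≤ (m : ℝ) / 69 * Real.log 2 := by
        have : (m : ℝ) / 69 * Real.log 2 ≥ (m : ℝ) / 69 * 0.6931471803 := by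
          apply mul_le_mul_of_nonneg_left hl2.le; positivity
        linarith
      nlinarith
    have h8 : (Nat.clog 2 L0 : ℝ) ≤ ((Nat.clog 2 L0 - 1 : ℕ) : ℝ) + 1 := by
      have : Nat.clog 2 L0 ≤ (Nat.clog 2 L0 - 1) + 1 := by omega
      exact_mod_cast this
    have h9 : (10 * (Nat.clog 2 L0 + 1) : ℝ) ≤ m := by linarith
    exact_mod_cast h9

theorem lp_MREG (hW : Weights_stmt) (hF : Frac_stmt) (hS : Split_stmt) : MainReg_stmt := by
  intro V _ G D m L hreg hm hn hL
  -- empty graph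
  by_cases hV : IsEmpty V
  · refine ⟨fun _ => 0, fun e he => ?_, fun u => (hV.false u).elim⟩
    induction e using Sym2.ind with
    | _ u v => exact (hV.false u).elim
  rw [not_isEmpty_iff] at hV
  obtain ⟨v0⟩ := hV
  have hDn := MREG_D_lt hreg v0
  rcases Nat.lt_or_ge D (10 ^ 12 * m ^ 5) with hD | hD
  · -- greedy
    refine Pool.Agent.Helper25.LR.LC_greedy fun a b hab => ?_
    have h1 : dg G.edgeSet a = D := by rw [dg, MREG_nb, hreg a]
    have h2 : dg G.edgeSet b = D := by rw [dg, MREG_nb, hreg b]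
    have h3 := hL _ hab
    omega
  -- main case
  obtain ⟨hnum1, hnum2⟩ := MREG_num hm hn hDn hD
  set L0 := D + 10 ^ 12 * m ^ 5 with hL0
  set κ := Nat.clog 2 L0 with hκ
  have hm0 : 0 < m := by omega
  have hDpos : 0 < D := by
    have : 0 < 10 ^ 12 * m ^ 5 := by positivity
    omega
  have hDr : (0 : ℝ) < D := by exact_mod_cast hDpos
  have hmr : (60 : ℝ) ≤ m := by exact_mod_cast hm
  -- truncated lists
  have hex : ∀ e : Sym2 V, ∃ t : Finset ℕ, e ∈ G.edgeSet → t ⊆ L e ∧ t.card = L0 := by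
    intro e
    by_cases he : e ∈ G.edgeSet
    · obtain ⟨t, ht, hc⟩ := Finset.exists_subset_card_eq (hL e he)
      exact ⟨t, fun _ => ⟨ht, hc⟩⟩
    · exact ⟨∅, fun h => absurd h he⟩
  choose L' hL' using hex
  have hcardE : Fintype.card G.edgeSet ≤ Fintype.card V * Fintype.card V := by
    have h1 : Fintype.card G.edgeSet ≤ Fintype.card (Sym2 V) :=
      Fintype.card_subtype_le _
    have h2 : Fintype.card (Sym2 V) ≤ Fintype.card (V × V) :=
      Fintype.card_le_of_surjective (fun p : V × V => Sym2.mk p.1 p.2) (by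
        intro e
        induction e using Sym2.ind with
        | _ u v => exact ⟨(u, v), rfl⟩)
    rw [Fintype.card_prod] at h2
    exact h1.trans h2
  obtain ⟨g, hg⟩ := hS G.edgeSet m L0 (fun e => L' e.1) (2 * Real.sqrt (m * D)) hm0
    (by omega) (by positivity) (fun e => (hL' e.1 e.2).2) (by
      refine lt_of_le_of_lt ?_ hnum1
      have h1 : (Fintype.card G.edgeSet : ℝ) ≤ (Fintype.card V : ℝ) * Fintype.card V := by
        exact_mod_cast hcardE
      gcongr)
  -- sizes of the parts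
  set k8 := 8 * (κ + 1) ^ 2 with hk8
  have hk8m : 8 * (κ + 1) ^ 2 * 100 ≤ 8 * m ^ 2 := by
    have : (10 * (κ + 1)) ^ 2 ≤ m ^ 2 := Nat.pow_le_pow_left hnum2 2
    nlinarith
  have hk8r : (k8 : ℝ) ≤ 8 / 100 * (m : ℝ) ^ 2 := by
    have : ((8 * (κ + 1) ^ 2 * 100 : ℕ) : ℝ) ≤ ((8 * m ^ 2 : ℕ) : ℝ) := by exact_mod_cast hk8m
    rw [hk8]
    push_cast at this ⊢
    linarith
  have hDbig : (10 : ℝ) ^ 12 * (m : ℝ) ^ 5 ≤ D := by exact_mod_cast hD
  have hsD : (10 : ℝ) ^ 6 * (m : ℝ) ^ 2 * Real.sqrt m ≤ Real.sqrt D := by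
    rw [← Real.sqrt_sq (by positivity : (0 : ℝ) ≤ 10 ^ 6 * (m : ℝ) ^ 2), ← Real.sqrt_mul (by positivity)]
    refine Real.sqrt_le_sqrt ?_
    nlinarith
  have hsmD : Real.sqrt (m * D) = Real.sqrt m * Real.sqrt D := Real.sqrt_mul (by positivity) _
  have hsm : 0 ≤ Real.sqrt (m : ℝ) := Real.sqrt_nonneg _
  have hsmm : Real.sqrt (m : ℝ) * Real.sqrt m = m := Real.mul_self_sqrt (by positivity)
  have hsDD : Real.sqrt (D : ℝ) * Real.sqrt D = D := Real.mul_self_sqrt (by positivity)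
  have hpart : ∀ e ∈ G.edgeSet, ∀ i, k8 ≤ ((L' e).filter (fun c => g c = i)).card := by
    intro e he i
    have h1 := (abs_le.mp (hg ⟨e, he⟩ i)).1
    have h2 : (D : ℝ) / m ≤ (L0 : ℝ) / m := by
      have h0 : (D : ℝ) ≤ L0 := by
        rw [hL0]; push_cast; exact le_add_of_nonneg_right (by positivity)
      exact div_le_div_of_nonneg_right h0 (by positivity)
    have h3 : (k8 : ℝ) ≤ (((L' e).filter (fun c => g c = i)).card : ℝ) := by
      have h4 : 2 * Real.sqrt (m * D) + 8 / 100 * (m : ℝ) ^ 2 ≤ (D : ℝ) / m := by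
        rw [le_div_iff₀ (by positivity), hsmD]
        have h5 : 2 * (Real.sqrt m * Real.sqrt D) * m ≤ (D : ℝ) / 2 := by
          have h6 : 4 * (m * Real.sqrt m) ≤ Real.sqrt D := by
            refine le_trans ?_ hsD
            have : 4 * (m : ℝ) ≤ 10 ^ 6 * (m : ℝ) ^ 2 := by nlinarith
            nlinarith
          nlinarith [Real.sqrt_nonneg (D : ℝ)]
        have h7 : 8 / 100 * (m : ℝ) ^ 2 * m ≤ (D : ℝ) / 2 := by
          have : (m : ℝ) ^ 3 ≤ (m : ℝ) ^ 5 := pow_le_pow_right₀ (by linarith) (by norm_num)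
          nlinarith
        linarith
      linarith
    exact_mod_cast h3
  set l : Fin m → Sym2 V → ℕ := fun i e =>
    if e ∈ G.edgeSet then ((L' e).filter (fun c => g c = i)).card - k8 else 0 with hl
  have hle : ∀ i, ∀ e ∈ G.edgeSet, l i e = ((L' e).filter (fun c => g c = i)).card - k8 := by
    intro i e he
    simp only [hl, if_pos he]
  have hsumcard : ∀ e ∈ G.edgeSet, ∑ i, ((L' e).filter (fun c => g c = i)).card = L0 := by
    intro e he
    rw [← (hL' e he).2]
    exact (Finset.card_eq_sum_card_fiberwise (fun c _ => Finset.mem_univ (g c))).symm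
  have hmk8 : m * k8 * 100 ≤ 8 * m ^ 3 := by
    calc m * k8 * 100 = m * (8 * (κ + 1) ^ 2 * 100) := by rw [hk8]; ring
      _ ≤ m * (8 * m ^ 2) := Nat.mul_le_mul_left _ hk8m
      _ = 8 * m ^ 3 := by ring
  have hm35 : m ^ 3 ≤ m ^ 5 := Nat.pow_le_pow_right hm0 (by norm_num)
  have hm45 : m ^ 4 ≤ m ^ 5 := Nat.pow_le_pow_right hm0 (by norm_num)
  have hmk8L : m * k8 ≤ L0 := by omega
  have hL0le : L0 ≤ 2 * D := by omega
  have hsuml : ∀ e ∈ G.edgeSet, ∑ i, l i e = L0 - m * k8 := by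
    intro e he
    have h1 : ∑ i, l i e = ∑ i, (((L' e).filter (fun c => g c = i)).card - k8) :=
      Finset.sum_congr rfl fun i _ => hle i e he
    have h2 : ∑ i, (((L' e).filter (fun c => g c = i)).card - k8) + ∑ _i : Fin m, k8 =
        ∑ i, ((L' e).filter (fun c => g c = i)).card := by
      rw [← Finset.sum_add_distrib]
      exact Finset.sum_congr rfl fun i _ => Nat.sub_add_cancel (hpart e he i)
    rw [Finset.sum_const, Finset.card_univ, Fintype.card_fin, smul_eq_mul, hsumcard e he] at h2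
    omega
  have hL1D : (D : ℝ) ≤ ((L0 - m * k8 : ℕ) : ℝ) := by
    have : D ≤ L0 - m * k8 := by omega
    exact_mod_cast this
  have hL1cast : ((L0 - m * k8 : ℕ) : ℝ) = (L0 : ℝ) - m * k8 := by
    rw [Nat.cast_sub hmk8L]; push_cast; ring
  obtain ⟨σ, w, hw0, hwσ, hwsum, hwload⟩ := hW V G D m l (L0 - m * k8) hreg hm hn hD
    (by omega) (by omega) hsuml (by
      intro i e he
      have h1 := hg ⟨e, he⟩ i
      have h2 : (l i e : ℝ) = (((L' e).filter (fun c => g c = i)).card : ℝ) - k8 := by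
        rw [hle i e he, Nat.cast_sub (hpart e he i)]
      have hL1pos : 0 < ((L0 - m * k8 : ℕ) : ℝ) := lt_of_lt_of_le hDr hL1D
      have h3 : (m : ℝ) * l i e / ((L0 - m * k8 : ℕ) : ℝ) - 1 =
          (m * ((((L' e).filter (fun c => g c = i)).card : ℝ) - L0 / m)) / ((L0 - m * k8 : ℕ) : ℝ) := by
        rw [div_sub_one hL1pos.ne', h2, hL1cast]
        congr 1
        field_simp
        ring
      rw [h3, abs_div, abs_mul, abs_of_pos hL1pos, abs_of_nonneg (by positivity : (0 : ℝ) ≤ m)]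
      have h4 : Real.sqrt (m / D) = Real.sqrt (m * D) / D := by
        rw [Real.sqrt_div (by positivity), hsmD, div_eq_div_iff (Real.sqrt_pos.mpr hDr).ne' hDr.ne']
        rw [mul_assoc, hsDD]
      rw [h4]
      calc m * |(((L' e).filter (fun c => g c = i)).card : ℝ) - L0 / m| / ((L0 - m * k8 : ℕ) : ℝ)
          ≤ m * (2 * Real.sqrt (m * D)) / D := by
            apply div_le_div₀ (by positivity) (mul_le_mul_of_nonneg_left h1 (by positivity)) hDr hL1D
        _ = 2 * m * (Real.sqrt (m * D) / D) := by ring)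
  refine Pool.Agent.Helper25.LR.LC_mono (fun e he => (hL' e he).1) ?_
  refine hF V G.edgeSet m κ σ L' g l w ?_ hw0 hwσ hwsum ?_ ?_ ?_
  · intro v hv
    exact G.loopless.irrefl v ((SimpleGraph.mem_edgeSet G).mp hv)
  · intro i u
    rw [MREG_nb]
    exact hwload i u
  · intro i e
    by_cases he : e ∈ G.edgeSet
    · rw [hle i e he]
      calc ((L' e).filter (fun c => g c = i)).card - k8 ≤ ((L' e).filter (fun c => g c = i)).card :=
            Nat.sub_le _ _
        _ ≤ (L' e).card := Finset.card_filter_le _ _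
        _ = L0 := (hL' e he).2
        _ ≤ 2 ^ κ := Nat.le_pow_clog (by norm_num) _
    · simp only [hl, if_neg he]; exact Nat.zero_le _
  · intro i e he
    rw [hle i e he]
    have := hpart e he i
    omega

end Pool.Agent.Helper15.LP
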