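import Pool.Agent.Helper15.LP.Defs
import Pool.Agent.Helper15.LR.B1b

set_option autoImplicit false

open Finset
open scoped Classical
open Pool.Agent.Helper15.LR

namespace Pool.Agent.Helper15.LP

theorem NONE_prod {ι κ : Type} [Fintype ι] [Fintype κ] (w : κ → ℝ) (Q : κ → Prop) :
    PP (fun _ : ι => w) {x | ∀ k, Q (x k)} = (∑ p, if Q p then w p else 0) ^ Fintype.card ι := by
  have h3 : PP (fun _ : ι => w) {x | ∀ k, Q (x k)} =
      ∑ x : ι → κ, ∏ k, (if Q (x k) then w (x k) else 0) := by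
    unfold PP
    refine Finset.sum_congr rfl fun x _ => ?_
    by_cases hx : ∀ k, Q (x k)
    · rw [if_pos (show x ∈ {x : ι → κ | ∀ k, Q (x k)} from hx)]
      exact Finset.prod_congr rfl fun k _ => by rw [if_pos (hx k)]
    · rw [if_neg (show ¬ x ∈ {x : ι → κ | ∀ k, Q (x k)} from hx)]
      push Not at hx
      obtain ⟨k, hk⟩ := hx
      rw [Finset.prod_eq_zero (Finset.mem_univ k) (if_neg hk)]
  rw [h3, B1b_sum_prod (fun (_ : ι) p => if Q p then w p else 0), Finset.prod_const,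
    Finset.card_univ]

theorem NONE_num {n m : ℕ} (hn : (n : ℝ) ≤ Real.exp (m / 100)) :
    (n : ℝ) * n * (7 / 8) ^ m ≤ Real.exp (-(m / 10)) := by
  have hn0 : (0 : ℝ) ≤ n := Nat.cast_nonneg n
  have h3 : (n : ℝ) * n ≤ Real.exp (m / 50) := by
    have : Real.exp ((m : ℝ) / 50) = Real.exp (m / 100) * Real.exp (m / 100) := by
      rw [← Real.exp_add]; congr 1; ring
    rw [this]
    exact mul_le_mul hn hn hn0 (Real.exp_pos _).le
  have h4 : (7 / 8 : ℝ) ≤ Real.exp (-(1 / 8 : ℝ)) := by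
    have := Real.add_one_le_exp (-(1 / 8 : ℝ))
    linarith
  have h5 : ((7 / 8 : ℝ)) ^ m ≤ Real.exp (-(m / 8)) := by
    have h6 : Real.exp (-((m : ℝ) / 8)) = Real.exp (-(1 / 8 : ℝ)) ^ m := by
      rw [← Real.exp_nat_mul]; congr 1; ring
    rw [h6]
    exact pow_le_pow_left₀ (by norm_num) h4 m
  calc (n : ℝ) * n * (7 / 8) ^ m ≤ Real.exp (m / 50) * Real.exp (-(m / 8)) :=
        mul_le_mul h3 h5 (by positivity) (Real.exp_pos _).le
    _ = Real.exp (-(21 / 200 * m)) := by rw [← Real.exp_add]; congr 1; ring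
    _ ≤ Real.exp (-(m / 10)) := by
        apply Real.exp_le_exp.mpr
        have : (0 : ℝ) ≤ m := Nat.cast_nonneg m
        linarith

theorem lp_NONE (hU : PPUnion_stmt) : NonE_stmt := by
  intro V _ G D m R w hm hn hw
  obtain ⟨hw0, -, -, -, hw5⟩ := hw
  set B : V × V → Set (Fin m → (V → Bool) × (V → Bool)) := fun q =>
    {x | q.1 ≠ q.2 ∧ ∀ k, (x k).2 q.1 = (x k).2 q.2} with hB
  have h1 := hU (Fin m) ((V → Bool) × (V → Bool)) (V × V) (fun _ p => w p)
    {x | ∃ u v, u ≠ v ∧ ¬ (pat (tr x) u v).Nonempty} B (fun _ p => hw0 p) (by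
      rintro x ⟨u, v, huv, hne⟩
      refine ⟨(u, v), huv, fun k => ?_⟩
      by_contra hk
      refine hne ⟨k, ?_⟩
      unfold pat
      rw [Finset.mem_filter]
      exact ⟨Finset.mem_univ _, hk⟩)
  refine h1.trans ?_
  have h2 : ∀ q : V × V, PP (fun (_ : Fin m) (p : (V → Bool) × (V → Bool)) => w p) (B q) ≤ (7 / 8) ^ m := by
    intro q
    by_cases hq : q.1 = q.2
    · have : B q = ∅ := by
        ext x; simp [hB, hq]
      rw [this]
      have h4 : PP (fun (_ : Fin m) (p : (V → Bool) × (V → Bool)) => w p) ∅ = 0 := by simp [PP]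
      rw [h4]; positivity
    · have h3 : B q = {x | ∀ k, (fun p : (V → Bool) × (V → Bool) => p.2 q.1 = p.2 q.2) (x k)} := by
        ext x; simp [hB, hq]
      rw [h3, NONE_prod w (fun p : (V → Bool) × (V → Bool) => p.2 q.1 = p.2 q.2), Fintype.card_fin]
      refine pow_le_pow_left₀ (Finset.sum_nonneg fun p _ => ?_) ?_ m
      · split_ifs
        · exact hw0 p
        · exact le_rfl
      · rw [Fintype.sum_prod_type]
        refine le_trans (le_of_eq ?_) (hw5 q.1 q.2 hq)
        refine Finset.sum_congr rfl fun x _ => Finset.sum_congr rfl fun y _ => ?_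
        by_cases h : y q.1 = y q.2
        · rw [if_pos h, if_pos (show (x, y).2 q.1 = (x, y).2 q.2 from h)]
        · rw [if_neg h, if_neg (show ¬ (x, y).2 q.1 = (x, y).2 q.2 from h)]
  refine (Finset.sum_le_sum fun q _ => h2 q).trans ?_
  rw [Finset.sum_const, Finset.card_univ, Fintype.card_prod, nsmul_eq_mul]
  push_cast
  exact NONE_num hn

end Pool.Agent.Helper15.LP
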